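import Mathlib.NumberTheory.Harmonic.EulerMascheroni
import Mathlib.Analysis.SpecialFunctions.Trigonometric.DerivHyp
import Mathlib.Analysis.SpecialFunctions.Log.Deriv
import Mathlib.Analysis.SpecificLimits.Basic

set_option autoImplicit false

namespace Pool.Agent.X156.LN

open Filter

theorem log_le (y : ℝ) (hy : 1 ≤ y) : Real.log y ≤ (y - y⁻¹) / 2 := by
  rw [← Real.sinh_log (by linarith)]
  exact Real.self_le_sinh_iff.2 (Real.log_nonneg hy)

noncomputable def H (n : ℕ) : ℝ := ((harmonic n : ℚ) : ℝ)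

theorem H_succ (n : ℕ) : H (n + 1) = H n + 1 / ((n : ℝ) + 1) := by
  unfold H
  rw [harmonic_succ]
  push_cast
  rw [one_div]

theorem tend : Tendsto (fun n : ℕ => H (n + 1) - Real.log ((n : ℝ) + 1)) atTop
    (nhds Real.eulerMascheroniConstant) := by
  have h1 := (tendsto_add_atTop_iff_nat 1).2 Real.tendsto_harmonic_sub_log
  refine h1.congr fun n => ?_
  unfold H
  push_cast
  rfl

theorem upper (n : ℕ) : H (n + 1) - Real.log ((n : ℝ) + 1) - 1 / (2 * ((n : ℝ) + 1)) ≤
    Real.eulerMascheroniConstant := by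
  have hmono : Monotone fun n : ℕ =>
      H (n + 1) - Real.log ((n : ℝ) + 1) - 1 / (2 * ((n : ℝ) + 1)) := by
    refine monotone_nat_of_le_succ fun n => ?_
    have hn : (0 : ℝ) < (n : ℝ) + 1 := by positivity
    have hn2 : (0 : ℝ) < (n : ℝ) + 1 + 1 := by positivity
    rw [H_succ (n + 1)]
    push_cast
    have h1 := log_le (((n : ℝ) + 1 + 1) / ((n : ℝ) + 1)) (by rw [le_div_iff₀ hn]; linarith)
    rw [Real.log_div hn2.ne' hn.ne', inv_div] at h1
    have h2 : (((n : ℝ) + 1 + 1) / ((n : ℝ) + 1) - ((n : ℝ) + 1) / ((n : ℝ) + 1 + 1)) / 2 =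
        1 / ((n : ℝ) + 1 + 1) - 1 / (2 * ((n : ℝ) + 1 + 1)) + 1 / (2 * ((n : ℝ) + 1)) := by
      field_simp
      ring
    rw [h2] at h1
    linarith
  have hlim : Tendsto (fun n : ℕ =>
      H (n + 1) - Real.log ((n : ℝ) + 1) - 1 / (2 * ((n : ℝ) + 1))) atTop
      (nhds (Real.eulerMascheroniConstant - 0)) := by
    refine tend.sub ?_
    have h1 := (tendsto_one_div_add_atTop_nhds_zero_nat (𝕜 := ℝ)).const_mul (1 / 2)
    rw [mul_zero] at h1
    refine h1.congr fun n => ?_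
    have hn : (0 : ℝ) < (n : ℝ) + 1 := by positivity
    field_simp
  rw [sub_zero] at hlim
  exact hmono.ge_of_tendsto hlim n

theorem lower (n : ℕ) : Real.eulerMascheroniConstant ≤
    H (n + 1) - Real.log ((n : ℝ) + 1 + 1 / 2) := by
  have hanti : Antitone fun n : ℕ => H (n + 1) - Real.log ((n : ℝ) + 1 + 1 / 2) := by
    refine antitone_nat_of_succ_le fun n => ?_
    have hn : (0 : ℝ) < (n : ℝ) + 1 + 1 / 2 := by positivity
    have hn2 : (0 : ℝ) < (n : ℝ) + 1 + 1 + 1 / 2 := by positivity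
    rw [H_succ (n + 1)]
    push_cast
    have hx : (0 : ℝ) ≤ 1 / ((n : ℝ) + 1 + 1 / 2) := by positivity
    have h1 := Real.le_log_one_add_of_nonneg hx
    have h2 : 1 + 1 / ((n : ℝ) + 1 + 1 / 2) = ((n : ℝ) + 1 + 1 + 1 / 2) / ((n : ℝ) + 1 + 1 / 2) := by
      field_simp
      ring
    rw [h2, Real.log_div hn2.ne' hn.ne'] at h1
    have h3 : 2 * (1 / ((n : ℝ) + 1 + 1 / 2)) / (1 / ((n : ℝ) + 1 + 1 / 2) + 2) =
        1 / ((n : ℝ) + 1 + 1) := by
      field_simp
      ring
    rw [h3] at h1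
    linarith
  have hlim : Tendsto (fun n : ℕ => H (n + 1) - Real.log ((n : ℝ) + 1 + 1 / 2)) atTop
      (nhds (Real.eulerMascheroniConstant - Real.log 1)) := by
    have h1 : Tendsto (fun n : ℕ => (H (n + 1) - Real.log ((n : ℝ) + 1)) -
        Real.log (1 + (1 / 2) * (1 / ((n : ℝ) + 1)))) atTop
        (nhds (Real.eulerMascheroniConstant - Real.log 1)) := by
      refine tend.sub ?_
      refine (Real.continuousAt_log one_ne_zero).tendsto.comp ?_
      have h2 := ((tendsto_one_div_add_atTop_nhds_zero_nat (𝕜 := ℝ)).const_mul (1 / 2)).const_add 1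
      rw [mul_zero, add_zero] at h2
      exact h2
    refine h1.congr fun n => ?_
    have hn : (0 : ℝ) < (n : ℝ) + 1 := by positivity
    have h2 : (n : ℝ) + 1 + 1 / 2 = ((n : ℝ) + 1) * (1 + (1 / 2) * (1 / ((n : ℝ) + 1))) := by
      field_simp
    rw [h2, Real.log_mul hn.ne' (by positivity)]
    ring
  rw [Real.log_one, sub_zero] at hlim
  exact hanti.le_of_tendsto hlim n

theorem t_EUL : Filter.Tendsto (fun n : ℕ => (n:ℝ) * (((harmonic n : ℚ):ℝ) - Real.log n -
    Real.eulerMascheroniConstant)) Filter.atTop (nhds (1/2)) := by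
  rw [← tendsto_add_atTop_iff_nat 1]
  have hlow : Tendsto (fun n : ℕ => (1 / 2 : ℝ) - (1 / 2) * (1 / (4 * ((n : ℝ) + 1) + 1))) atTop
      (nhds (1 / 2)) := by
    have h0 : Tendsto (fun n : ℕ => (1 / (4 * ((n : ℝ) + 1) + 1) : ℝ)) atTop (nhds 0) := by
      refine squeeze_zero (fun n => by positivity) (fun n => ?_)
        (tendsto_one_div_add_atTop_nhds_zero_nat (𝕜 := ℝ))
      have hn : (0 : ℝ) < (n : ℝ) + 1 := by positivity
      exact one_div_le_one_div_of_le hn (by linarith)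
    have h1 := (h0.const_mul (1 / 2)).const_sub (1 / 2)
    rw [mul_zero, sub_zero] at h1
    exact h1
  refine tendsto_of_tendsto_of_tendsto_of_le_of_le hlow tendsto_const_nhds ?_ ?_
  · intro n
    have hn : (0 : ℝ) < (n : ℝ) + 1 := by positivity
    have h1 := lower n
    have hx : (0 : ℝ) ≤ 1 / (2 * ((n : ℝ) + 1)) := by positivity
    have h2 := Real.le_log_one_add_of_nonneg hx
    have h3 : (n : ℝ) + 1 + 1 / 2 = ((n : ℝ) + 1) * (1 + 1 / (2 * ((n : ℝ) + 1))) := by
      field_simp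
    rw [h3, Real.log_mul hn.ne' (by positivity)] at h1
    have h4 : 2 * (1 / (2 * ((n : ℝ) + 1))) / (1 / (2 * ((n : ℝ) + 1)) + 2) =
        2 / (4 * ((n : ℝ) + 1) + 1) := by
      field_simp
      ring
    rw [h4] at h2
    have h5 : 2 / (4 * ((n : ℝ) + 1) + 1) ≤ H (n + 1) - Real.log ((n : ℝ) + 1) -
        Real.eulerMascheroniConstant := by linarith
    have h6 := mul_le_mul_of_nonneg_left h5 hn.le
    have h7 : (1 / 2 : ℝ) - (1 / 2) * (1 / (4 * ((n : ℝ) + 1) + 1)) =
        ((n : ℝ) + 1) * (2 / (4 * ((n : ℝ) + 1) + 1)) := by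
      field_simp
      ring
    change (1 / 2 : ℝ) - (1 / 2) * (1 / (4 * ((n : ℝ) + 1) + 1)) ≤ _
    rw [h7]
    refine h6.trans (le_of_eq ?_)
    unfold H
    push_cast
    rfl
  · intro n
    have hn : (0 : ℝ) < (n : ℝ) + 1 := by positivity
    have h1 := upper n
    have h5 : H (n + 1) - Real.log ((n : ℝ) + 1) - Real.eulerMascheroniConstant ≤
        1 / (2 * ((n : ℝ) + 1)) := by linarith
    have h6 := mul_le_mul_of_nonneg_left h5 hn.le
    have h7 : ((n : ℝ) + 1) * (1 / (2 * ((n : ℝ) + 1))) = 1 / 2 := by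
      field_simp
    rw [h7] at h6
    refine (le_of_eq ?_).trans h6
    unfold H
    push_cast
    rfl

end Pool.Agent.X156.LN
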