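import Pool.Agent.X26.LF.Stm

set_option autoImplicit false

namespace Pool.Agent.X156.LF

open Finset Pool.Agent.X26.LF

section

variable {m p N : ℕ} [Fact p.Prime]

open Classical in
/-- the coefficients -/
noncomputable def co (u : Fin m → ZMod p) (ι : Fin m ↪ Fin N) (i : Fin N) : ZMod p :=
  ∑ j, if ι j = i then u j else 0

theorem co_sum (u : Fin m → ZMod p) (ι : Fin m ↪ Fin N) (x : Fin N → ZMod p) :
    ∑ i, co u ι i * x i = ∑ j, u j * x (ι j) := by
  classical
  unfold co
  simp_rw [Finset.sum_mul]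
  rw [Finset.sum_comm]
  refine Finset.sum_congr rfl fun j _ => ?_
  rw [Finset.sum_eq_single (ι j)]
  · rw [if_pos rfl]
  · intro i _ hi
    rw [if_neg (fun h => hi h.symm), zero_mul]
  · intro h
    exact absurd (Finset.mem_univ _) h

theorem co_emb (u : Fin m → ZMod p) (ι : Fin m ↪ Fin N) (j : Fin m) : co u ι (ι j) = u j := by
  classical
  unfold co
  rw [Finset.sum_eq_single j]
  · rw [if_pos rfl]
  · intro k _ hk
    rw [if_neg (fun h => hk (ι.injective h))]
  · intro h
    exact absurd (Finset.mem_univ _) h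

theorem co_off (u : Fin m → ZMod p) (ι : Fin m ↪ Fin N) (i : Fin N) (hi : i ∉ Set.range ι) :
    co u ι i = 0 := by
  classical
  unfold co
  refine Finset.sum_eq_zero fun j _ => ?_
  rw [if_neg (fun h => hi ⟨j, h⟩)]

theorem co_ne (u : Fin m → ZMod p) (hu : ∀ i, u i ≠ 0) (hm : 1 ≤ m) (ι : Fin m ↪ Fin N) :
    co u ι ≠ 0 := by
  intro h
  have h1 := congrFun h (ι ⟨0, hm⟩)
  rw [co_emb] at h1
  exact hu _ h1

theorem co_range (u : Fin m → ZMod p) (hu : ∀ i, u i ≠ 0) (hm : 1 ≤ m) (ι ι' : Fin m ↪ Fin N)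
    (h : ∃ l, co u ι' = fun i => l * co u ι i) : Set.range ι' = Set.range ι := by
  obtain ⟨l, hl⟩ := h
  have hl0 : l ≠ 0 := by
    rintro rfl
    apply co_ne u hu hm ι'
    rw [hl]
    funext i
    rw [zero_mul]
    rfl
  apply Set.eq_of_subset_of_subset
  · rintro _ ⟨j, rfl⟩
    by_contra hcon
    have h1 := congrFun hl (ι' j)
    rw [co_emb, co_off u ι _ hcon, mul_zero] at h1
    exact hu _ h1
  · rintro _ ⟨j, rfl⟩
    by_contra hcon
    have h1 := congrFun hl (ι j)
    rw [co_emb, co_off u ι' _ hcon] at h1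
    exact mul_ne_zero hl0 (hu j) h1.symm

end

open Classical in
theorem same_range {m N : ℕ} (ι : Fin m ↪ Fin N) :
    (univ.filter fun ι' : Fin m ↪ Fin N => Set.range ι' = Set.range ι).card ≤ m.factorial := by
  have hsub : (univ.filter fun ι' : Fin m ↪ Fin N => Set.range ι' = Set.range ι) ⊆
      univ.image (fun σ : Equiv.Perm (Fin m) => σ.toEmbedding.trans ι) := by
    intro ι' h
    rw [mem_filter] at h
    have hex : ∀ j, ∃ k, ι k = ι' j := fun j => by
      have h1 : ι' j ∈ Set.range ι := by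
        rw [← h.2]
        exact ⟨j, rfl⟩
      exact h1
    choose κ hκ using hex
    have hinj : Function.Injective κ := fun a b hab => ι'.injective (by rw [← hκ a, ← hκ b, hab])
    have hbij := Finite.injective_iff_bijective.1 hinj
    refine mem_image.2 ⟨Equiv.ofBijective κ hbij, mem_univ _, ?_⟩
    exact Function.Embedding.ext fun j => hκ j
  refine (card_le_card hsub).trans (card_image_le.trans ?_)
  rw [card_univ, Fintype.card_perm, Fintype.card_fin]

theorem t_SM : S_CNT → S_SM := by
  classical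
  intro hC m p N hp u s hm hu hT
  have hp0 : 0 < p := hp.1.pos
  -- one form
  have h1 : ∀ ι : Fin m ↪ Fin N,
      p * (univ.filter fun x : Fin N → ZMod p => ∑ j, u j * x (ι j) = s).card = p ^ N := by
    intro ι
    have h := (hC p N (co u ι) 0 s 0 (co_ne u hu hm ι)).1
    simp_rw [co_sum] at h
    exact h
  have h2 : ∀ ι ι' : Fin m ↪ Fin N, p ^ 2 * (univ.filter fun x : Fin N → ZMod p =>
      ∑ j, u j * x (ι j) = s ∧ ∑ j, u j * x (ι' j) = s).card ≤
      p ^ N + if Set.range ι' = Set.range ι then p * p ^ N else 0 := by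
    intro ι ι'
    by_cases hr : Set.range ι' = Set.range ι
    · rw [if_pos hr]
      have h3 : (univ.filter fun x : Fin N → ZMod p =>
          ∑ j, u j * x (ι j) = s ∧ ∑ j, u j * x (ι' j) = s).card ≤
          (univ.filter fun x : Fin N → ZMod p => ∑ j, u j * x (ι j) = s).card :=
        card_le_card fun x hx => by
          rw [mem_filter] at hx ⊢
          exact ⟨hx.1, hx.2.1⟩
      calc p ^ 2 * _ ≤ p ^ 2 * (univ.filter fun x : Fin N → ZMod p =>
            ∑ j, u j * x (ι j) = s).card := Nat.mul_le_mul_left _ h3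
        _ = p * p ^ N := by rw [pow_two, mul_assoc, h1]
        _ ≤ _ := Nat.le_add_left _ _
    · rw [if_neg hr, add_zero]
      have h := (hC p N (co u ι) (co u ι') s s (co_ne u hu hm ι)).2
        (fun h => hr (co_range u hu hm ι ι' h))
      simp_rw [co_sum] at h
      exact h.le
  set X : (Fin N → ZMod p) → ℕ := fun x =>
    (univ.filter fun ι : Fin m ↪ Fin N => ∑ j, u j * x (ι j) = s).card with hX
  have hcardE : Fintype.card (Fin m ↪ Fin N) = N.descFactorial m := by
    rw [Fintype.card_embedding_eq, Fintype.card_fin, Fintype.card_fin]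
  have hsum : p * ∑ x, X x = N.descFactorial m * p ^ N := by
    have h3 : ∑ x, X x = ∑ ι : Fin m ↪ Fin N,
        (univ.filter fun x : Fin N → ZMod p => ∑ j, u j * x (ι j) = s).card := by
      simp_rw [hX, Finset.card_filter]
      exact Finset.sum_comm
    rw [h3, Finset.mul_sum, Finset.sum_congr rfl fun ι _ => h1 ι, Finset.sum_const, card_univ,
      hcardE, smul_eq_mul]
  have hsq : p ^ 2 * ∑ x, X x ^ 2 ≤
      N.descFactorial m * (N.descFactorial m * p ^ N + m.factorial * (p * p ^ N)) := by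
    have h3 : ∑ x, X x ^ 2 = ∑ ι : Fin m ↪ Fin N, ∑ ι' : Fin m ↪ Fin N,
        (univ.filter fun x : Fin N → ZMod p =>
          ∑ j, u j * x (ι j) = s ∧ ∑ j, u j * x (ι' j) = s).card := by
      have h4 : ∀ x, X x ^ 2 = ∑ ι : Fin m ↪ Fin N, ∑ ι' : Fin m ↪ Fin N,
          if (∑ j, u j * x (ι j) = s ∧ ∑ j, u j * x (ι' j) = s) then 1 else 0 := by
        intro x
        rw [hX, pow_two]
        simp only [Finset.card_filter]
        rw [Finset.sum_mul_sum]
        refine Finset.sum_congr rfl fun ι _ => Finset.sum_congr rfl fun ι' _ => ?_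
        by_cases ha : ∑ j, u j * x (ι j) = s
        · by_cases hb : ∑ j, u j * x (ι' j) = s
          · simp [ha, hb]
          · simp [hb]
        · simp [ha]
      rw [Finset.sum_congr rfl fun x _ => h4 x, Finset.sum_comm]
      refine Finset.sum_congr rfl fun ι _ => ?_
      rw [Finset.sum_comm]
      refine Finset.sum_congr rfl fun ι' _ => ?_
      rw [Finset.card_filter]
    rw [h3, Finset.mul_sum]
    have h5 : ∀ ι : Fin m ↪ Fin N, p ^ 2 * ∑ ι' : Fin m ↪ Fin N,
        (univ.filter fun x : Fin N → ZMod p =>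
          ∑ j, u j * x (ι j) = s ∧ ∑ j, u j * x (ι' j) = s).card ≤
        N.descFactorial m * p ^ N + m.factorial * (p * p ^ N) := by
      intro ι
      rw [Finset.mul_sum]
      refine (Finset.sum_le_sum fun ι' _ => h2 ι ι').trans ?_
      rw [Finset.sum_add_distrib, Finset.sum_const, card_univ, hcardE, smul_eq_mul,
        ← Finset.sum_filter, Finset.sum_const, smul_eq_mul]
      exact Nat.add_le_add_left (Nat.mul_le_mul_right _ (same_range ι)) _
    refine (Finset.sum_le_sum fun ι _ => h5 ι).trans ?_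
    rw [Finset.sum_const, card_univ, hcardE, smul_eq_mul]
  -- Cauchy-Schwarz
  set Z := (univ.filter fun x : Fin N → ZMod p =>
    ¬ ∃ ι : Fin m ↪ Fin N, ∑ j, u j * x (ι j) = s).card with hZ
  set Y := (univ.filter fun x : Fin N → ZMod p =>
    ∃ ι : Fin m ↪ Fin N, ∑ j, u j * x (ι j) = s).card with hY
  have hZY : Y + Z = p ^ N := by
    rw [hZ, hY, Finset.card_filter_add_card_filter_not, card_univ, Fintype.card_fun, ZMod.card,
      Fintype.card_fin]
  have hCS : (∑ x, X x) ^ 2 ≤ Y * ∑ x, X x ^ 2 := by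
    have h3 : ∑ x, X x = ∑ x ∈ univ.filter (fun x : Fin N → ZMod p =>
        ∃ ι : Fin m ↪ Fin N, ∑ j, u j * x (ι j) = s), X x := by
      symm
      refine Finset.sum_subset (filter_subset _ _) fun x _ hx => ?_
      rw [hX]
      change (univ.filter fun ι : Fin m ↪ Fin N => ∑ j, u j * x (ι j) = s).card = 0
      rw [Finset.card_eq_zero, Finset.filter_eq_empty_iff]
      intro ι _ h
      exact hx (mem_filter.2 ⟨mem_univ _, ι, h⟩)
    rw [h3]
    refine (sq_sum_le_card_mul_sum_sq).trans ?_
    exact Nat.mul_le_mul_left _ (Finset.sum_le_sum_of_subset (filter_subset _ _))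
  -- conclusion
  set T := N.descFactorial m with hTdef
  have hT0 : 0 < T := lt_of_lt_of_le (by positivity) hT
  have hpN : 0 < p ^ N := by positivity
  have h6 : (T * p ^ N) ^ 2 ≤ Y * (T * (T * p ^ N + m.factorial * (p * p ^ N))) := by
    calc (T * p ^ N) ^ 2 = (p * ∑ x, X x) ^ 2 := by rw [hsum]
      _ = p ^ 2 * (∑ x, X x) ^ 2 := by ring
      _ ≤ p ^ 2 * (Y * ∑ x, X x ^ 2) := Nat.mul_le_mul_left _ hCS
      _ = Y * (p ^ 2 * ∑ x, X x ^ 2) := by ring
      _ ≤ _ := Nat.mul_le_mul_left _ hsq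
  have h7 : T * p ^ N ≤ Y * (T + m.factorial * p) := by
    have h8 : (T * p ^ N) * (T * p ^ N) ≤ (T * p ^ N) * (Y * (T + m.factorial * p)) := by
      calc (T * p ^ N) * (T * p ^ N) = (T * p ^ N) ^ 2 := by ring
        _ ≤ _ := h6
        _ = _ := by ring
    exact Nat.le_of_mul_le_mul_left h8 (by positivity)
  have h9 : T * Z ≤ p ^ N * (m.factorial * p) := by
    have h10 : Y ≤ p ^ N := by omega
    have h11 : Y * (m.factorial * p) ≤ p ^ N * (m.factorial * p) := Nat.mul_le_mul_right _ h10
    have h12 : T * (Y + Z) ≤ Y * (T + m.factorial * p) := by rw [hZY]; exact h7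
    nlinarith
  have h13 : (m.factorial * p) * (8 * Z) ≤ (m.factorial * p) * p ^ N := by
    calc (m.factorial * p) * (8 * Z) = (8 * m.factorial * p) * Z := by ring
      _ ≤ T * Z := Nat.mul_le_mul_right _ hT
      _ ≤ p ^ N * (m.factorial * p) := h9
      _ = _ := by ring
  exact Nat.le_of_mul_le_mul_left h13 (by positivity)

end Pool.Agent.X156.LF
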